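import Pool.Agent.Helper43.RS.Spec

/-!
# Affine varieties with an action of a linear algebraic group: geometric definitions
-/

namespace Pool.Agent.Helper43.RS

open scoped ComplexConjugate
open MvPolynomial

/-! ## Affine varieties -/

/-- The algebra of regular functions on a subset `X` of affine space: restrictions to `X` of
polynomials. -/
noncomputable def polyFun {n : ℕ} (X : Set (Fin n → ℂ)) : Subalgebra ℂ (X → ℂ) :=
  (AlgHom.pi (fun x : X => (aeval (x : Fin n → ℂ) : MvPolynomial (Fin n) ℂ →ₐ[ℂ] ℂ))).range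

theorem mem_polyFun {n : ℕ} {X : Set (Fin n → ℂ)} {f : X → ℂ} :
    f ∈ polyFun X ↔ ∃ p : MvPolynomial (Fin n) ℂ, ∀ x : X, f x = eval (x : Fin n → ℂ) p := by
  constructor
  · rintro ⟨p, rfl⟩
    exact ⟨p, fun x => by simp [aeval_eq_eval]⟩
  · rintro ⟨p, hp⟩
    refine ⟨p, ?_⟩
    ext x
    simp [aeval_eq_eval, hp x]

/-- Normal affine varieties, embedded as Zariski closed subsets of an affine space: `X` is the
set of common zeros of some polynomials and its algebra of regular functions is an integrally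
closed domain. -/
structure IsNormalAffineVariety {n : ℕ} (X : Set (Fin n → ℂ)) : Prop where
  closed : ∃ I : Set (MvPolynomial (Fin n) ℂ), X = {x | ∀ p ∈ I, eval x p = 0}
  irreducible : IsDomain (polyFun X)
  normal : IsIntegrallyClosed (polyFun X)

/-- Regular self maps. -/
def IsRegularMap {n : ℕ} {X : Set (Fin n → ℂ)} (f : X → X) : Prop :=
  ∀ i, ∃ p : MvPolynomial (Fin n) ℂ, ∀ x : X, (f x : Fin n → ℂ) i = eval (x : Fin n → ℂ) p

/-- Antiregular self maps: the coordinates are complex conjugates of regular functions. -/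
def IsAntiregularMap {n : ℕ} {X : Set (Fin n → ℂ)} (f : X → X) : Prop :=
  ∀ i, ∃ p : MvPolynomial (Fin n) ℂ, ∀ x : X,
    (f x : Fin n → ℂ) i = conj (eval (x : Fin n → ℂ) p)

/-! ## Linear algebraic groups -/

/-- The algebra of regular functions on a linear group: polynomials in the entries of `g` and
of its inverse. -/
noncomputable def groupFun {m : ℕ} (G : Subgroup (GL (Fin m) ℂ)) : Subalgebra ℂ (G → ℂ) :=
  (AlgHom.pi (fun g : G => (aeval (entries (g : GL (Fin m) ℂ)) :
    MvPolynomial ((Fin m × Fin m) ⊕ (Fin m × Fin m)) ℂ →ₐ[ℂ] ℂ))).range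

theorem mem_groupFun {m : ℕ} {G : Subgroup (GL (Fin m) ℂ)} {f : G → ℂ} :
    f ∈ groupFun G ↔ ∃ p : MvPolynomial ((Fin m × Fin m) ⊕ (Fin m × Fin m)) ℂ,
      ∀ g : G, f g = eval (entries (g : GL (Fin m) ℂ)) p := by
  constructor
  · rintro ⟨p, rfl⟩
    exact ⟨p, fun x => by simp [aeval_eq_eval]⟩
  · rintro ⟨p, hp⟩
    refine ⟨p, ?_⟩
    ext x
    simp [aeval_eq_eval, hp x]

/-- A Zariski closed subgroup of `GL m ℂ` which is irreducible (equivalently, connected):
its algebra of regular functions is a domain. -/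
structure IsConnectedAlgGroup {m : ℕ} (A : Subgroup (GL (Fin m) ℂ)) : Prop where
  closed : ZClosed (A : Set (GL (Fin m) ℂ))
  irreducible : IrrFun (groupFun A)

/-- Complex reductive groups: Zariski closed subgroups `G` of `GL m ℂ` whose identity component
(the connected Zariski closed subgroup of finite index) is linearly reductive, i.e. all its
finite dimensional rational representations are completely reducible. -/
def IsReductiveGroup {m : ℕ} (G : Subgroup (GL (Fin m) ℂ)) : Prop :=
  ZClosed (G : Set (GL (Fin m) ℂ)) ∧ ∃ G₀ : Subgroup (GL (Fin m) ℂ), G₀ ≤ G ∧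
    IsConnectedAlgGroup G₀ ∧ G₀.relIndex G ≠ 0 ∧ LinRed (groupFun G₀)

/-- Borel subgroups: maximal connected solvable Zariski closed subgroups. -/
structure IsBorel {m : ℕ} (G B : Subgroup (GL (Fin m) ℂ)) : Prop where
  le : B ≤ G
  conn : IsConnectedAlgGroup B
  solv : Group.IsSolvable B
  max : ∀ B' : Subgroup (GL (Fin m) ℂ), B ≤ B' → B' ≤ G → IsConnectedAlgGroup B' →
    Group.IsSolvable B' → B' = B

/-- Real group structures: antiregular group involutions. -/
structure IsRealGroupStructure {m : ℕ} {G : Subgroup (GL (Fin m) ℂ)} (σ : G ≃* G) : Prop where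
  invol : ∀ g, σ (σ g) = g
  antireg : ∀ i j, ∃ p : MvPolynomial ((Fin m × Fin m) ⊕ (Fin m × Fin m)) ℂ, ∀ g : G,
    ((σ g : G) : GL (Fin m) ℂ) i j = conj (eval (entries (g : GL (Fin m) ℂ)) p)

/-- Regular actions. -/
def IsRegularAction {m n : ℕ} (G : Subgroup (GL (Fin m) ℂ)) (X : Set (Fin n → ℂ))
    [MulAction G X] : Prop :=
  ∀ i, ∃ p : MvPolynomial (((Fin m × Fin m) ⊕ (Fin m × Fin m)) ⊕ Fin n) ℂ, ∀ (g : G) (x : X),
    ((g • x : X) : Fin n → ℂ) i =
      eval (Sum.elim (entries (g : GL (Fin m) ℂ)) (x : Fin n → ℂ)) p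

/-- The ideal of the closure of the orbit `B x`. -/
def orbitIdeal {m n : ℕ} {G : Subgroup (GL (Fin m) ℂ)} (B : Subgroup (GL (Fin m) ℂ))
    (X : Set (Fin n → ℂ)) [MulAction G X] (x : X) : Ideal (polyFun X) where
  carrier := {f | ∀ b : G, (b : GL (Fin m) ℂ) ∈ B → (f : X → ℂ) (b • x) = 0}
  add_mem' := by
    intro a b ha hb g hg
    have h1 := ha g hg
    have h2 := hb g hg
    simp [h1, h2]
  zero_mem' := by
    intro g hg
    simp
  smul_mem' := by
    intro c a ha g hg
    have h1 := ha g hg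
    simp [h1]

/-- Complexity one: the minimal codimension in `X` of an orbit of a Borel subgroup is one (the
dimension of an orbit is the Krull dimension of the algebra of regular functions of its
closure). -/
def HasComplexityOne {m n : ℕ} (G : Subgroup (GL (Fin m) ℂ)) (X : Set (Fin n → ℂ))
    [MulAction G X] : Prop :=
  ∃ B : Subgroup (GL (Fin m) ℂ), IsBorel G B ∧
    (∀ x : X, ringKrullDim (polyFun X ⧸ orbitIdeal (G := G) B X x) + 1 ≤
      ringKrullDim (polyFun X)) ∧
    ∃ x : X, ringKrullDim (polyFun X ⧸ orbitIdeal (G := G) B X x) + 1 =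
      ringKrullDim (polyFun X)

/-- `(G,σ)`-equivariant real structures on `X`. -/
structure EqRealStructure {m n : ℕ} {G : Subgroup (GL (Fin m) ℂ)} (σ : G ≃* G)
    (X : Set (Fin n → ℂ)) [MulAction G X] where
  toFun : X → X
  invol : ∀ x, toFun (toFun x) = x
  antireg : IsAntiregularMap toFun
  equivar : ∀ (g : G) (x : X), toFun (g • x) = σ g • toFun x

/-- Equivariant automorphisms of `X`. -/
structure IsEqAut {m n : ℕ} (G : Subgroup (GL (Fin m) ℂ)) {X : Set (Fin n → ℂ)}
    [MulAction G X] (φ : X ≃ X) : Prop where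
  reg : IsRegularMap φ
  reg_symm : IsRegularMap φ.symm
  equivar : ∀ (g : G) (x : X), φ (g • x) = g • φ x

/-- Equivalence of equivariant real structures: conjugation by an equivariant automorphism. -/
def EqRealStructure.Equiv {m n : ℕ} {G : Subgroup (GL (Fin m) ℂ)} {σ : G ≃* G}
    {X : Set (Fin n → ℂ)} [MulAction G X] (μ μ' : EqRealStructure σ X) : Prop :=
  ∃ φ : X ≃ X, IsEqAut G φ ∧ ∀ x, μ'.toFun x = φ (μ.toFun (φ.symm x))

end Pool.Agent.Helper43.RS
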