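import Pool.Agent.Helper43.RS.GeoC

namespace Pool.Agent.Helper43.RS

open scoped ComplexConjugate
open MvPolynomial

theorem closed_sub {m : ℕ} {G₀ : Subgroup (GL (Fin m) ℂ)}
    (h : ZClosed (G₀ : Set (GL (Fin m) ℂ))) (B : Subgroup (GL (Fin m) ℂ)) :
    ∃ Z : Set (B → ℂ), Z ⊆ groupFun B ∧ ∀ g : B, (g : GL (Fin m) ℂ) ∈ G₀ ↔ ∀ f ∈ Z, f g = 0 := by
  obtain ⟨I, hI⟩ := h
  refine ⟨{f | ∃ p ∈ I, f = fun g : B => eval (entries (g : GL (Fin m) ℂ)) p}, ?_, ?_⟩
  · rintro f ⟨p, hp, rfl⟩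
    exact mem_groupFun.2 ⟨p, fun g => rfl⟩
  · intro g
    have : (g : GL (Fin m) ℂ) ∈ (G₀ : Set (GL (Fin m) ℂ)) ↔
      ∀ p ∈ I, eval (entries (g : GL (Fin m) ℂ)) p = 0 := by
      rw [hI]
      rfl
    rw [SetLike.mem_coe] at this
    rw [this]
    constructor
    · rintro h f ⟨p, hp, rfl⟩
      exact h p hp
    · intro h p hp
      exact h _ ⟨p, hp, rfl⟩

/-- a connected subgroup lies in the identity component -/
theorem le_comp {m : ℕ} {G G₀ B : Subgroup (GL (Fin m) ℂ)}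
    (h0 : ZClosed (G₀ : Set (GL (Fin m) ℂ))) (hind : G₀.relIndex G ≠ 0) (hB : B ≤ G)
    (hI : IrrFun (groupFun B)) : B ≤ G₀ := by
  obtain ⟨Z, hZ, hZ2⟩ := closed_sub h0 B
  have h1 : (G₀.subgroupOf B).index ≠ 0 := by
    have : G₀.IsFiniteRelIndex G := ⟨hind⟩
    exact mt (Subgroup.relIndex_eq_zero_of_le_right hB) hind
  have := geo_irr (hopf_groupFun B) hI (G₀.subgroupOf B) h1 Z hZ (by
    intro g
    rw [Subgroup.mem_subgroupOf]
    exact hZ2 g)
  exact Subgroup.subgroupOf_eq_top.1 this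

/-- real group structures preserve the identity component -/
theorem sigma_comp {m : ℕ} {G G₀ : Subgroup (GL (Fin m) ℂ)} (hle : G₀ ≤ G)
    (h0 : ZClosed (G₀ : Set (GL (Fin m) ℂ))) (hind : G₀.relIndex G ≠ 0)
    (hI : IrrFun (groupFun G₀)) {σ : G ≃* G} (hσ : IsRealGroupStructure σ) (g : G)
    (hg : (g : GL (Fin m) ℂ) ∈ G₀) : ((σ g : G) : GL (Fin m) ℂ) ∈ G₀ := by
  obtain ⟨I, hI0⟩ := id h0
  have hmem : ∀ x : GL (Fin m) ℂ, x ∈ G₀ ↔ ∀ p ∈ I, eval (entries x) p = 0 := by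
    intro x
    have : x ∈ (G₀ : Set (GL (Fin m) ℂ)) ↔ ∀ p ∈ I, eval (entries x) p = 0 := by
      rw [hI0]
      rfl
    rwa [SetLike.mem_coe] at this
  choose q hq using hσ.antireg
  -- entries of the image
  let Q : (Fin m × Fin m) ⊕ (Fin m × Fin m) → MvPolynomial ((Fin m × Fin m) ⊕ (Fin m × Fin m)) ℂ :=
    Sum.elim (fun ij => q ij.1 ij.2) (fun ij => rename Sum.swap (q ij.1 ij.2))
  have hQ : ∀ x : G, (fun s => conj (entries ((σ x : G) : GL (Fin m) ℂ) s)) =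
      fun s => aeval (entries (x : GL (Fin m) ℂ)) (Q s) := by
    intro x
    funext s
    rcases s with s | s
    · change conj (((σ x : G) : GL (Fin m) ℂ) s.1 s.2) = _
      rw [hq, Complex.conj_conj, ← aeval_eq_eval]
      rfl
    · have h1 : entries ((σ x : G) : GL (Fin m) ℂ) (Sum.inr s) =
          (((σ x⁻¹ : G) : GL (Fin m) ℂ) : Matrix (Fin m) (Fin m) ℂ) s.1 s.2 := by
        rw [map_inv, Subgroup.coe_inv]
        rfl
      rw [h1, hq, Complex.conj_conj]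
      change _ = aeval _ (rename Sum.swap (q s.1 s.2))
      rw [aeval_rename, ← aeval_eq_eval]
      have : entries ((x⁻¹ : G) : GL (Fin m) ℂ) = entries (x : GL (Fin m) ℂ) ∘ Sum.swap := by
        funext s
        rw [Function.comp_apply, Subgroup.coe_inv, entries_inv]
      rw [this]
  let D : Subgroup G₀ := (G₀.subgroupOf G).comap (σ.toMonoidHom.comp (Subgroup.inclusion hle))
  have hDm : ∀ x : G₀, x ∈ D ↔ ((σ (Subgroup.inclusion hle x) : G) : GL (Fin m) ℂ) ∈ G₀ := by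
    intro x
    rfl
  have hD : D.index ≠ 0 := by
    have h1 : D.index = (G₀.subgroupOf G).relIndex
        (σ.toMonoidHom.comp (Subgroup.inclusion hle)).range := Subgroup.index_comap _ _
    rw [h1]
    intro h0
    apply hind
    have h2 := Subgroup.relIndex_eq_zero_of_le_right
      (le_top : (σ.toMonoidHom.comp (Subgroup.inclusion hle)).range ≤ ⊤) h0
    rw [Subgroup.relIndex_top_right] at h2
    exact h2
  have := geo_irr (hopf_groupFun G₀) hI D hD
    {f | ∃ p ∈ I, f = fun x : G₀ => eval (entries (x : GL (Fin m) ℂ))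
      (bind₁ Q (map (starRingEnd ℂ) p))} (by
      rintro f ⟨p, hp, rfl⟩
      exact mem_groupFun.2 ⟨_, fun g => rfl⟩) (by
      intro x
      rw [hDm, hmem]
      have key : ∀ p, conj (eval (entries ((σ (Subgroup.inclusion hle x) : G) : GL (Fin m) ℂ)) p) =
          eval (entries (x : GL (Fin m) ℂ)) (bind₁ Q (map (starRingEnd ℂ) p)) := by
        intro p
        rw [map_eval]
        have h2 := hQ (Subgroup.inclusion hle x)
        have h3 : (⇑(starRingEnd ℂ) ∘ entries ((σ (Subgroup.inclusion hle x) : G) : GL (Fin m) ℂ)) =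
          fun s => aeval (entries (x : GL (Fin m) ℂ)) (Q s) := h2
        rw [h3, ← aeval_eq_eval, ← aeval_eq_eval, aeval_bind₁]
      constructor
      · rintro h f ⟨p, hp, rfl⟩
        beta_reduce
        rw [← key, h p hp, map_zero]
      · intro h p hp
        have h4 := h _ ⟨p, hp, rfl⟩
        beta_reduce at h4
        rw [← key] at h4
        simpa using h4)
  have h5 : (⟨(g : GL (Fin m) ℂ), hg⟩ : G₀) ∈ D := by
    rw [this]
    trivial
  exact h5

/-- transfer along group isomorphisms -/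
theorem irr_transfer {G₁ G₂ : Type} [Group G₁] [Group G₂] (e : G₁ ≃* G₂)
    {H₁ : Subalgebra ℂ (G₁ → ℂ)} {H₂ : Subalgebra ℂ (G₂ → ℂ)}
    (h : ∀ f : G₁ → ℂ, f ∈ H₁ → (fun x => f (e.symm x)) ∈ H₂) (hI : IrrFun H₂) : IrrFun H₁ := by
  intro f hf g hg hfg
  have h1 : (fun x => f (e.symm x)) * (fun x => g (e.symm x)) = 0 := by
    ext x
    exact congrFun hfg (e.symm x)
  rcases hI _ (h f hf) _ (h g hg) h1 with h2 | h2
  · left
    ext x
    simpa using congrFun h2 (e x)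
  · right
    ext x
    simpa using congrFun h2 (e x)

theorem lin_transfer {G₁ G₂ : Type} [Group G₁] [Group G₂] (e : G₁ ≃* G₂)
    {H₁ : Subalgebra ℂ (G₁ → ℂ)} {H₂ : Subalgebra ℂ (G₂ → ℂ)}
    (h : ∀ f : G₁ → ℂ, f ∈ H₁ → (fun x => f (e.symm x)) ∈ H₂) (hL : LinRed H₂) : LinRed H₁ := by
  intro V _ _ _ ρ hρ W hW
  have h1 : IsRat H₂ (ρ.comp e.symm.toMonoidHom) := by
    intro v
    obtain ⟨W, h1, h2, h3, h4⟩ := hρ v
    refine ⟨W, h1, h2, fun g w hw => h3 _ w hw, fun w hw φ => ?_⟩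
    exact h _ (h4 w hw φ)
  obtain ⟨W', h2, h3⟩ := hL V (ρ.comp e.symm.toMonoidHom) h1 W (fun g w hw => hW _ w hw)
  refine ⟨W', fun g w hw => ?_, h3⟩
  have := h2 (e g) w hw
  simpa using this

theorem res_to_sub {m : ℕ} {G G₀ : Subgroup (GL (Fin m) ℂ)} (hle : G₀ ≤ G)
    (f : (G₀.subgroupOf G) → ℂ) (hf : f ∈ resFun (groupFun G) (G₀.subgroupOf G)) :
    (fun x : G₀ => f ((Subgroup.subgroupOfEquivOfLe hle).symm x)) ∈ groupFun G₀ := by
  obtain ⟨h, hh, hf⟩ := mem_resFun.1 hf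
  obtain ⟨p, hp⟩ := mem_groupFun.1 hh
  refine mem_groupFun.2 ⟨p, fun x => ?_⟩
  rw [hf, hp]
  rfl

end Pool.Agent.Helper43.RS
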