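import Pool.Agent.Helper43.RS.GeoE
import Pool.Agent.Helper77.RS.BEZ
import Pool.Agent.Helper77.RS.BS
import Pool.Agent.Helper79.RS.FC
import Pool.Agent.Helper79.RS.CX
import Pool.Agent.Helper91.RS.SQB
import Pool.Agent.Helper81.RS.LOC
import Pool.Agent.Helper81.RS.GEN
import Pool.Agent.Helper81.RS.STR
import Pool.Agent.Helper37.RS.LK
import Pool.Agent.Helper41.RS.HIL
import Pool.Agent.Helper53.RS.KB
import Pool.Agent.Helper53.RS.INV
import Pool.Agent.Helper59.RS.PLACE
import Pool.Agent.Helper19.RS.UNITS
import Pool.Agent.Helper19.RS.CURVE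
import Pool.Agent.Helper71.RS.STRA
import Pool.Agent.Helper71.RS.STRB
import Pool.Agent.Helper71.RS.STRC
import Pool.Agent.Helper17.RS.GRP
import Pool.Agent.Helper57.RS.CORE

/-!
# MP_2461de_ag, Q1 for affine varieties

Every normal affine variety of complexity one under a complex reductive group (connected or
not) with a real group structure has only finitely many equivalence classes of equivariant real
structures.
-/

namespace Pool.Agent.Helper43.RS.AffineVarieties

open Pool.Agent.Helper43.RS

theorem core : ST_CORE := by
  have hBS : ST_BS := st_BS (st_FC st_BEZ) st_SQA st_SQB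
  have hGEN : ST_GEN := st_GEN st_LK
  have hREY : ST_REY := st_REY
  have hHIL : ST_HIL := st_HIL hREY
  have hFDV : ST_FDV := st_FDV hREY
  have hCOV : ST_COV := st_COV hREY
  have hKB : ST_KB := st_KB
  have hINV : ST_INV := st_INV hHIL
  have hPL : ST_PLACE := PLACE.st_PLACE
  have hUN : ST_UNITS := st_UNITS hPL
  have hCU : ST_CURVE := st_CURVE hPL
  have hSTR : ST_STR := st_STR hFDV hINV hCU (st_STRA hKB hGEN hUN hINV)
    (st_STRB hKB hGEN hCOV) (st_STRC hKB hGEN hCOV)
  exact st_CORE hSTR st_GRP (st_LOC hBS)

/-- Let `G` be a complex reductive group (a Zariski closed subgroup of `GL m ℂ` whose identity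
component is linearly reductive) with a real group structure `σ`, and let `X` be a normal affine
variety (a Zariski closed subset of `ℂ ^ n`) with a regular action of `G` of complexity one. Then
the `(G, σ)`-equivariant real structures on `X` form finitely many equivalence classes. -/
theorem result {m n : ℕ} (G : Subgroup (GL (Fin m) ℂ)) (hG : IsReductiveGroup G)
    (σ : G ≃* G) (hσ : IsRealGroupStructure σ) (X : Set (Fin n → ℂ)) [MulAction G X]
    (hX : IsNormalAffineVariety X) (hact : IsRegularAction G X) (hc : HasComplexityOne G X) :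
    Finite (Quotient (rsSetoid σ X)) :=
  geo_main core st_CX hG hσ hX hact hc

end Pool.Agent.Helper43.RS.AffineVarieties
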