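import Mathlib

/-!
# Equivariant real structures on affine varieties: basic definitions

Algebraic side: groups with a Hopf type algebra of functions, rational representations,
linear reductivity, actions by algebra automorphisms.
-/

namespace Pool.Agent.Helper43.RS

open scoped ComplexConjugate

/-- An algebra `H` of complex functions on a group `G` which is stable under the coproduct and
the antipode (for an affine algebraic group `G`, its algebra of regular functions). -/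
structure HopfFun {G : Type} [Group G] (H : Subalgebra ℂ (G → ℂ)) : Prop where
  mul : ∀ f ∈ H, ∃ (n : ℕ) (a b : Fin n → G → ℂ), (∀ i, a i ∈ H) ∧ (∀ i, b i ∈ H) ∧
    ∀ x y, f (x * y) = ∑ i, a i x * b i y
  inv : ∀ f ∈ H, (fun x => f x⁻¹) ∈ H

/-- The algebra of functions has no zero divisors (irreducible group). -/
def IrrFun {G : Type} (H : Subalgebra ℂ (G → ℂ)) : Prop :=
  ∀ f ∈ H, ∀ g ∈ H, f * g = 0 → f = 0 ∨ g = 0

/-- Rational (locally finite, with coefficient functions in `H`) representations. -/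
def IsRat {G : Type} [Group G] (H : Subalgebra ℂ (G → ℂ)) {V : Type} [AddCommGroup V]
    [Module ℂ V] (ρ : Representation ℂ G V) : Prop :=
  ∀ v : V, ∃ W : Submodule ℂ V, v ∈ W ∧ FiniteDimensional ℂ W ∧
    (∀ g, ∀ w ∈ W, ρ g w ∈ W) ∧ ∀ w ∈ W, ∀ φ : V →ₗ[ℂ] ℂ, (fun g => φ (ρ g w)) ∈ H

/-- Linear reductivity: finite dimensional rational representations are completely reducible. -/
def LinRed {G : Type} [Group G] (H : Subalgebra ℂ (G → ℂ)) : Prop :=
  ∀ (V : Type) [AddCommGroup V] [Module ℂ V] [FiniteDimensional ℂ V]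
    (ρ : Representation ℂ G V), IsRat H ρ → ∀ W : Submodule ℂ V, (∀ g, ∀ w ∈ W, ρ g w ∈ W) →
    ∃ W' : Submodule ℂ V, (∀ g, ∀ w ∈ W', ρ g w ∈ W') ∧ IsCompl W W'

/-- The algebra of restrictions of the functions of `H` to a subgroup. -/
def resFun {G : Type} [Group G] (H : Subalgebra ℂ (G → ℂ)) (B : Subgroup G) :
    Subalgebra ℂ (B → ℂ) :=
  H.map (AlgHom.pi fun b : B => Pi.evalAlgHom ℂ (fun _ : G => ℂ) (b : G))

/-- An action by algebra automorphisms, seen as a linear representation. -/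
def toRep {G : Type} [Group G] {R : Type} [CommRing R] [Algebra ℂ R]
    (ρ : G →* (R ≃ₐ[ℂ] R)) : Representation ℂ G R where
  toFun g := (ρ g).toLinearMap
  map_one' := by ext; simp
  map_mul' g h := by ext; simp

@[simp] theorem toRep_apply {G : Type} [Group G] {R : Type} [CommRing R] [Algebra ℂ R]
    (ρ : G →* (R ≃ₐ[ℂ] R)) (g : G) (r : R) : toRep ρ g r = ρ g r := rfl

/-- The subalgebra of invariants. -/
def invt {G : Type} [Group G] {R : Type} [CommRing R] [Algebra ℂ R]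
    (ρ : G →* (R ≃ₐ[ℂ] R)) : Subalgebra ℂ R where
  carrier := {r | ∀ g, ρ g r = r}
  mul_mem' := by
    intro a b ha hb g
    rw [map_mul, ha g, hb g]
  add_mem' := by
    intro a b ha hb g
    rw [map_add, ha g, hb g]
  algebraMap_mem' := by
    intro c g
    exact (ρ g).commutes c

theorem mem_invt {G : Type} [Group G] {R : Type} [CommRing R] [Algebra ℂ R]
    {ρ : G →* (R ≃ₐ[ℂ] R)} {r : R} : r ∈ invt ρ ↔ ∀ g, ρ g r = r := Iff.rfl

/-- The group of `ℂ`-algebra automorphisms commuting with the action. -/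
def eqAut {G : Type} [Group G] {R : Type} [CommRing R] [Algebra ℂ R]
    (ρ : G →* (R ≃ₐ[ℂ] R)) : Subgroup (R ≃ₐ[ℂ] R) where
  carrier := {a | ∀ g, a * ρ g = ρ g * a}
  mul_mem' := by
    intro a b ha hb g
    rw [mul_assoc, hb g, ← mul_assoc, ha g, mul_assoc]
  one_mem' := by
    intro g
    rw [one_mul, mul_one]
  inv_mem' := by
    intro a ha g
    rw [inv_mul_eq_iff_eq_mul, ← mul_assoc, ha g, mul_assoc, mul_inv_cancel, mul_one]

theorem mem_eqAut {G : Type} [Group G] {R : Type} [CommRing R] [Algebra ℂ R]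
    {ρ : G →* (R ≃ₐ[ℂ] R)} {a : R ≃ₐ[ℂ] R} : a ∈ eqAut ρ ↔ ∀ g, a * ρ g = ρ g * a := Iff.rfl

/-- Semi-invariants of weight `lam` of a subgroup. -/
def semi {B : Type} [Group B] {R : Type} [CommRing R] [Algebra ℂ R]
    (ρ : B →* (R ≃ₐ[ℂ] R)) (lam : B → ℂ) : Submodule ℂ R where
  carrier := {r | ∀ b, ρ b r = lam b • r}
  add_mem' := by
    intro a b ha hb g
    rw [map_add, ha g, hb g, smul_add]
  zero_mem' := by
    intro g
    rw [map_zero, smul_zero]
  smul_mem' := by
    intro c r hr g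
    rw [map_smul, hr g, smul_comm]

theorem mem_semi {B : Type} [Group B] {R : Type} [CommRing R] [Algebra ℂ R]
    {ρ : B →* (R ≃ₐ[ℂ] R)} {lam : B → ℂ} {r : R} :
    r ∈ semi ρ lam ↔ ∀ b, ρ b r = lam b • r := Iff.rfl

/-- Locally finite automorphisms. -/
def LocFin {R : Type} [CommRing R] [Algebra ℂ R] (a : R ≃ₐ[ℂ] R) : Prop :=
  ∀ r : R, ∃ W : Submodule ℂ R, r ∈ W ∧ FiniteDimensional ℂ W ∧ ∀ w ∈ W, a w ∈ W

/-- Antilinear ring automorphism. -/
def Anti {R : Type} [CommRing R] [Algebra ℂ R] (μ : R ≃+* R) : Prop :=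
  ∀ c : ℂ, μ (algebraMap ℂ R c) = algebraMap ℂ R (conj c)

/-- Zariski closed subgroups of `GL n ℂ`: zero sets of polynomials in the entries of `g` and
of its inverse. -/
def entries {n : ℕ} (g : GL (Fin n) ℂ) : (Fin n × Fin n) ⊕ (Fin n × Fin n) → ℂ :=
  Sum.elim (fun ij => (g : Matrix (Fin n) (Fin n) ℂ) ij.1 ij.2)
    (fun ij => ((g⁻¹ : GL (Fin n) ℂ) : Matrix (Fin n) (Fin n) ℂ) ij.1 ij.2)

def ZClosed {n : ℕ} (A : Set (GL (Fin n) ℂ)) : Prop :=
  ∃ I : Set (MvPolynomial ((Fin n × Fin n) ⊕ (Fin n × Fin n)) ℂ),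
    A = {g | ∀ p ∈ I, MvPolynomial.eval (entries g) p = 0}

/-- Entrywise complex conjugation on `GL n ℂ`. -/
noncomputable def cj {n : ℕ} : GL (Fin n) ℂ →* GL (Fin n) ℂ :=
  Matrix.GeneralLinearGroup.map (starRingEnd ℂ)

end Pool.Agent.Helper43.RS
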