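import Pool.Agent.Helper43.RS.Geo

namespace Pool.Agent.Helper43.RS

open scoped ComplexConjugate
open MvPolynomial

/-- a subgroup of finite index which is a zero set is everything, for an irreducible group -/
theorem geo_irr {G : Type} [Group G] {H : Subalgebra ℂ (G → ℂ)} (hH : HopfFun H)
    (hI : IrrFun H) (D : Subgroup G) (hD : D.index ≠ 0) (Z : Set (G → ℂ)) (hZ : Z ⊆ H)
    (hDZ : ∀ g, g ∈ D ↔ ∀ f ∈ Z, f g = 0) : D = ⊤ := by
  classical
  by_contra hne
  have : D.FiniteIndex := ⟨hD⟩
  have : Finite (G ⧸ D) := Subgroup.finite_quotient_of_finiteIndex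
  have : Fintype (G ⧸ D) := Fintype.ofFinite _
  -- for each coset a nonzero function vanishing on it
  have h1 : ∃ f ∈ Z, f ≠ 0 := by
    by_contra hcon
    push Not at hcon
    apply hne
    rw [eq_top_iff]
    intro g _
    rw [hDZ]
    intro f hf
    rw [hcon f hf]
    rfl
  obtain ⟨f0, hf0, hf0n⟩ := h1
  have h2 : ∀ q : G ⧸ D, ∃ f ∈ H, f ≠ 0 ∧ ∀ g : G, (QuotientGroup.mk g : G ⧸ D) = q → f g = 0 := by
    intro q
    induction q using QuotientGroup.induction_on with
    | H a =>
      refine ⟨fun x => f0 (a⁻¹ * x), ?_, ?_, ?_⟩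
      · obtain ⟨n, c, d, hc, hd, hcd⟩ := hH.mul f0 (hZ hf0)
        have : (fun x => f0 (a⁻¹ * x)) = ∑ i, (c i a⁻¹) • d i := by
          ext x
          simp [hcd]
        rw [this]
        exact Subalgebra.sum_mem _ fun i _ => Subalgebra.smul_mem _ (hd i) _
      · intro h0
        apply hf0n
        ext x
        have := congrFun h0 (a * x)
        simpa using this
      · intro g hg
        have : a⁻¹ * g ∈ D := by
          rw [eq_comm, QuotientGroup.eq] at hg
          exact hg
        exact (hDZ _).1 this f0 hf0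
  choose F hF1 hF2 hF3 using h2
  have h3 : ∀ s : Finset (G ⧸ D), (∏ q ∈ s, F q) ∈ H ∧ (∏ q ∈ s, F q) ≠ 0 := by
    intro s
    induction s using Finset.induction_on with
    | empty =>
      constructor
      · simp
      · simp only [Finset.prod_empty]
        intro h
        have := congrFun h (1 : G)
        simp at this
    | insert q s hq ih =>
      rw [Finset.prod_insert hq]
      refine ⟨H.mul_mem (hF1 q) ih.1, ?_⟩
      intro h0
      rcases hI _ (hF1 q) _ ih.1 h0 with h | h
      · exact hF2 q h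
      · exact ih.2 h
  apply (h3 Finset.univ).2
  ext g
  rw [Finset.prod_apply]
  exact Finset.prod_eq_zero (Finset.mem_univ (QuotientGroup.mk g)) (hF3 _ g rfl)

theorem entries_one_inl {m : ℕ} (g : GL (Fin m) ℂ) (ij : Fin m × Fin m) :
    entries g (Sum.inl ij) = (g : Matrix (Fin m) (Fin m) ℂ) ij.1 ij.2 := rfl

theorem entries_inr {m : ℕ} (g : GL (Fin m) ℂ) (ij : Fin m × Fin m) :
    entries g (Sum.inr ij) = ((g⁻¹ : GL (Fin m) ℂ) : Matrix (Fin m) (Fin m) ℂ) ij.1 ij.2 := rfl

theorem entries_inv {m : ℕ} (g : GL (Fin m) ℂ) (s : (Fin m × Fin m) ⊕ (Fin m × Fin m)) :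
    entries g⁻¹ s = entries g s.swap := by
  rcases s with s | s
  · rfl
  · simp [entries]

/-- functions with a coproduct decomposition -/
def Dec {G : Type} [Group G] (H : Subalgebra ℂ (G → ℂ)) (f : G → ℂ) : Prop :=
  ∃ (n : ℕ) (a b : Fin n → G → ℂ), (∀ i, a i ∈ H) ∧ (∀ i, b i ∈ H) ∧
    ∀ x y, f (x * y) = ∑ i, a i x * b i y

theorem dec_fintype {G : Type} [Group G] {H : Subalgebra ℂ (G → ℂ)} {f : G → ℂ}
    {ι : Type} [Fintype ι] (a b : ι → G → ℂ) (ha : ∀ i, a i ∈ H) (hb : ∀ i, b i ∈ H)
    (h : ∀ x y, f (x * y) = ∑ i, a i x * b i y) : Dec H f := by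
  refine ⟨Fintype.card ι, fun i => a ((Fintype.equivFin ι).symm i),
    fun i => b ((Fintype.equivFin ι).symm i), fun i => ha _, fun i => hb _, ?_⟩
  intro x y
  rw [h]
  exact (Equiv.sum_comp (Fintype.equivFin ι).symm (fun i => a i x * b i y)).symm

theorem dec_add {G : Type} [Group G] {H : Subalgebra ℂ (G → ℂ)} {f g : G → ℂ}
    (hf : Dec H f) (hg : Dec H g) : Dec H (f + g) := by
  obtain ⟨n, a, b, ha, hb, hab⟩ := hf
  obtain ⟨n', a', b', ha', hb', hab'⟩ := hg
  refine dec_fintype (ι := Fin n ⊕ Fin n') (Sum.elim a a') (Sum.elim b b') ?_ ?_ ?_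
  · rintro (i | i)
    · exact ha i
    · exact ha' i
  · rintro (i | i)
    · exact hb i
    · exact hb' i
  · intro x y
    simp [hab, hab']

theorem dec_mul {G : Type} [Group G] {H : Subalgebra ℂ (G → ℂ)} {f g : G → ℂ}
    (hf : Dec H f) (hg : Dec H g) : Dec H (f * g) := by
  obtain ⟨n, a, b, ha, hb, hab⟩ := hf
  obtain ⟨n', a', b', ha', hb', hab'⟩ := hg
  refine dec_fintype (ι := Fin n × Fin n') (fun i => a i.1 * a' i.2) (fun i => b i.1 * b' i.2)
    ?_ ?_ ?_
  · intro i
    exact H.mul_mem (ha _) (ha' _)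
  · intro i
    exact H.mul_mem (hb _) (hb' _)
  · intro x y
    simp only [Pi.mul_apply, hab, hab', Fintype.sum_prod_type, Finset.sum_mul_sum]
    refine Finset.sum_congr rfl fun i _ => Finset.sum_congr rfl fun j _ => by ring

theorem dec_const {G : Type} [Group G] {H : Subalgebra ℂ (G → ℂ)} (c : ℂ) :
    Dec H (fun _ => c) := by
  refine dec_fintype (ι := Unit) (fun _ _ => c) (fun _ _ => 1) ?_ ?_ ?_
  · intro _
    exact H.algebraMap_mem c
  · intro _
    exact H.one_mem
  · intro x y
    simp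

theorem coord_mem {m : ℕ} (G : Subgroup (GL (Fin m) ℂ))
    (s : (Fin m × Fin m) ⊕ (Fin m × Fin m)) :
    (fun g : G => entries (g : GL (Fin m) ℂ) s) ∈ groupFun G :=
  mem_groupFun.2 ⟨X s, fun g => by simp⟩

theorem hopf_groupFun {m : ℕ} (G : Subgroup (GL (Fin m) ℂ)) : HopfFun (groupFun G) where
  mul := by
    intro f hf
    obtain ⟨p, hp⟩ := mem_groupFun.1 hf
    have hf' : f = fun g : G => eval (entries (g : GL (Fin m) ℂ)) p := funext hp
    change Dec _ f
    rw [hf']
    clear hf hf' hp
    induction p using MvPolynomial.induction_on with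
    | C c => simpa using dec_const c
    | add p q hp hq =>
      have e : (fun g : G => eval (entries (g : GL (Fin m) ℂ)) (p + q)) =
          (fun g : G => eval (entries (g : GL (Fin m) ℂ)) p) +
            fun g : G => eval (entries (g : GL (Fin m) ℂ)) q := by
        ext g
        simp
      rw [e]
      exact dec_add hp hq
    | mul_X p s hp =>
      have hX : Dec (groupFun G) (fun g : G => entries (g : GL (Fin m) ℂ) s) := by
        rcases s with s | s
        · refine dec_fintype (ι := Fin m) (fun k g => entries (g : GL (Fin m) ℂ) (Sum.inl (s.1, k)))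
            (fun k g => entries (g : GL (Fin m) ℂ) (Sum.inl (k, s.2))) (fun k => coord_mem G _)
            (fun k => coord_mem G _) ?_
          intro x y
          simp [entries, Matrix.mul_apply]
        · refine dec_fintype (ι := Fin m) (fun k g => entries (g : GL (Fin m) ℂ) (Sum.inr (k, s.2)))
            (fun k g => entries (g : GL (Fin m) ℂ) (Sum.inr (s.1, k))) (fun k => coord_mem G _)
            (fun k => coord_mem G _) ?_
          intro x y
          simp only [entries, Sum.elim_inr, Subgroup.coe_mul, mul_inv_rev,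
            Matrix.GeneralLinearGroup.coe_mul, Matrix.mul_apply]
          exact Finset.sum_congr rfl fun k _ => mul_comm _ _
      have := dec_mul hp hX
      have e : (fun g : G => eval (entries (g : GL (Fin m) ℂ)) (p * X s)) =
          (fun g : G => eval (entries (g : GL (Fin m) ℂ)) p) *
            fun g : G => entries (g : GL (Fin m) ℂ) s := by
        ext g
        simp
      rw [e]
      exact this
  inv := by
    intro f hf
    obtain ⟨p, hp⟩ := mem_groupFun.1 hf
    refine mem_groupFun.2 ⟨rename Sum.swap p, fun g => ?_⟩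
    rw [hp, eval_rename]
    have e : entries ((g⁻¹ : G) : GL (Fin m) ℂ) = entries (g : GL (Fin m) ℂ) ∘ Sum.swap := by
      funext s
      rw [Function.comp_apply, Subgroup.coe_inv, entries_inv]
    rw [e]

/-- restriction of function algebras keeps the Hopf property -/
theorem hopf_res {G : Type} [Group G] {H : Subalgebra ℂ (G → ℂ)} (hH : HopfFun H)
    (B : Subgroup G) : HopfFun (resFun H B) where
  mul := by
    rintro _ ⟨f, hf, rfl⟩
    obtain ⟨n, a, b, ha, hb, hab⟩ := hH.mul f hf
    refine ⟨n, fun i x => a i x, fun i x => b i x, ?_, ?_, ?_⟩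
    · intro i
      exact ⟨a i, ha i, rfl⟩
    · intro i
      exact ⟨b i, hb i, rfl⟩
    · intro x y
      exact hab x y
  inv := by
    rintro _ ⟨f, hf, rfl⟩
    exact ⟨_, hH.inv f hf, rfl⟩

theorem mem_resFun {G : Type} [Group G] {H : Subalgebra ℂ (G → ℂ)} {B : Subgroup G}
    {f : B → ℂ} : f ∈ resFun H B ↔ ∃ h ∈ H, ∀ b : B, f b = h b := by
  constructor
  · rintro ⟨h, hh, rfl⟩
    exact ⟨h, hh, fun b => rfl⟩
  · rintro ⟨h, hh, hb⟩
    exact ⟨h, hh, (funext hb).symm⟩

theorem isRat_res {G : Type} [Group G] {H : Subalgebra ℂ (G → ℂ)} (B : Subgroup G)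
    {V : Type} [AddCommGroup V] [Module ℂ V] (ρ : Representation ℂ G V) (h : IsRat H ρ) :
    IsRat (resFun H B) (ρ.comp B.subtype) := by
  intro v
  obtain ⟨W, h1, h2, h3, h4⟩ := h v
  refine ⟨W, h1, h2, fun g w hw => h3 g w hw, fun w hw φ => ?_⟩
  exact mem_resFun.2 ⟨_, h4 w hw φ, fun b => rfl⟩

end Pool.Agent.Helper43.RS
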