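import Pool.Agent.Helper43.RS.GeoA

namespace Pool.Agent.Helper43.RS

open scoped ComplexConjugate
open MvPolynomial

section Maps

variable {n : ℕ} {X : Set (Fin n → ℂ)}

theorem comp_regular {f : X → X} (hf : IsRegularMap f) {h : X → ℂ} (hh : h ∈ polyFun X) :
    (fun x => h (f x)) ∈ polyFun X := by
  obtain ⟨p, hp⟩ := mem_polyFun.1 hh
  choose q hq using hf
  refine mem_polyFun.2 ⟨bind₁ q p, fun x => ?_⟩
  rw [hp, ← aeval_eq_eval, ← aeval_eq_eval, aeval_bind₁]
  have : ((f x : X) : Fin n → ℂ) = fun i => (aeval (x : Fin n → ℂ)) (q i) := by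
    funext i
    rw [hq i x, ← aeval_eq_eval]
  rw [this]

theorem comp_anti {f : X → X} (hf : IsAntiregularMap f) {h : X → ℂ} (hh : h ∈ polyFun X) :
    (fun x => conj (h (f x))) ∈ polyFun X := by
  obtain ⟨p, hp⟩ := mem_polyFun.1 hh
  choose q hq using hf
  refine mem_polyFun.2 ⟨bind₁ q (map (starRingEnd ℂ) p), fun x => ?_⟩
  have h1 : (conj ∘ ((f x : X) : Fin n → ℂ)) = fun i => (aeval (x : Fin n → ℂ)) (q i) := by
    funext i
    rw [Function.comp_apply, hq i x, Complex.conj_conj, ← aeval_eq_eval]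
  rw [hp, map_eval, h1, ← aeval_eq_eval, ← aeval_eq_eval, aeval_bind₁]

/-- pull back by the inverse of a biregular map -/
def pull (e : X ≃ X) (h1 : IsRegularMap e) (h2 : IsRegularMap e.symm) :
    polyFun X ≃ₐ[ℂ] polyFun X where
  toFun f := ⟨fun x => (f : X → ℂ) (e.symm x), comp_regular h2 f.2⟩
  invFun f := ⟨fun x => (f : X → ℂ) (e x), comp_regular h1 f.2⟩
  left_inv f := by
    ext x
    simp
  right_inv f := by
    ext x
    simp
  map_mul' f g := by
    ext x
    simp
  map_add' f g := by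
    ext x
    simp
  commutes' c := by
    ext x
    simp

theorem pull_apply (e : X ≃ X) (h1 : IsRegularMap e) (h2 : IsRegularMap e.symm)
    (f : polyFun X) (x : X) : (pull e h1 h2 f : X → ℂ) x = (f : X → ℂ) (e.symm x) := rfl

/-- the antilinear ring automorphism attached to an antiregular involution -/
def pullAnti (μ : X → X) (h1 : ∀ x, μ (μ x) = x) (h2 : IsAntiregularMap μ) :
    polyFun X ≃+* polyFun X where
  toFun f := ⟨fun x => conj ((f : X → ℂ) (μ x)), comp_anti h2 f.2⟩
  invFun f := ⟨fun x => conj ((f : X → ℂ) (μ x)), comp_anti h2 f.2⟩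
  left_inv f := by
    ext x
    simp [h1]
  right_inv f := by
    ext x
    simp [h1]
  map_mul' f g := by
    ext x
    simp
  map_add' f g := by
    ext x
    simp

theorem pullAnti_apply (μ : X → X) (h1 : ∀ x, μ (μ x) = x) (h2 : IsAntiregularMap μ)
    (f : polyFun X) (x : X) : (pullAnti μ h1 h2 f : X → ℂ) x = conj ((f : X → ℂ) (μ x)) := rfl

theorem pullAnti_anti (μ : X → X) (h1 : ∀ x, μ (μ x) = x) (h2 : IsAntiregularMap μ) :
    Anti (pullAnti μ h1 h2) := by
  intro c
  ext x
  rw [pullAnti_apply]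
  simp

/-- coordinate functions -/
noncomputable def coordFun (X : Set (Fin n → ℂ)) (i : Fin n) : polyFun X :=
  ⟨fun x => (x : Fin n → ℂ) i, mem_polyFun.2 ⟨MvPolynomial.X i, fun x => by simp⟩⟩

theorem coordFun_apply (i : Fin n) (x : X) : (coordFun X i : X → ℂ) x = (x : Fin n → ℂ) i := rfl

theorem aeval_coord (p : MvPolynomial (Fin n) ℂ) (x : X) :
    (aeval (coordFun X) p : X → ℂ) x = eval (x : Fin n → ℂ) p := by
  induction p using MvPolynomial.induction_on with
  | C c =>
    rw [algHom_C, eval_C]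
    simp
  | add p q hp hq =>
    rw [map_add, map_add, Subalgebra.coe_add, Pi.add_apply, hp, hq]
  | mul_X p i hp =>
    rw [map_mul, map_mul, Subalgebra.coe_mul, Pi.mul_apply, hp, aeval_X, eval_X, coordFun_apply]

theorem exists_aeval_coord (f : polyFun X) :
    ∃ p : MvPolynomial (Fin n) ℂ, aeval (coordFun X) p = f := by
  obtain ⟨p, hp⟩ := mem_polyFun.1 f.2
  refine ⟨p, ?_⟩
  ext x
  rw [aeval_coord, hp]

theorem finiteType_polyFun : Algebra.FiniteType ℂ (polyFun X) := by
  refine Algebra.FiniteType.of_surjective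
    (f := (aeval (coordFun X) : MvPolynomial (Fin n) ℂ →ₐ[ℂ] polyFun X)) ?_
  intro f
  exact exists_aeval_coord f

/-- evaluation at a point -/
noncomputable def evPt (x : X) : polyFun X →ₐ[ℂ] ℂ :=
  (Pi.evalAlgHom ℂ (fun _ : X => ℂ) x).comp (polyFun X).val

theorem evPt_apply (x : X) (f : polyFun X) : evPt x f = (f : X → ℂ) x := rfl

theorem ev_alg (a : polyFun X →ₐ[ℂ] ℂ) (p : MvPolynomial (Fin n) ℂ) :
    a (aeval (coordFun X) p) = eval (fun i => a (coordFun X i)) p := by
  rw [← aeval_eq_eval]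
  induction p using MvPolynomial.induction_on with
  | C c => simp
  | add p q hp hq => rw [map_add, map_add, map_add, hp, hq]
  | mul_X p i hp => rw [map_mul, map_mul, map_mul, hp, aeval_X, aeval_X]

/-- the point of a closed set attached to a character -/
theorem exists_point (hX : ∃ I : Set (MvPolynomial (Fin n) ℂ), X = {x | ∀ p ∈ I, eval x p = 0})
    (a : polyFun X →ₐ[ℂ] ℂ) : ∃ y : X, ∀ f : polyFun X, a f = (f : X → ℂ) y := by
  obtain ⟨I, hI⟩ := hX
  have hX' : ∀ y : Fin n → ℂ, y ∈ X ↔ ∀ p ∈ I, eval y p = 0 := by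
    intro y
    conv_lhs => rw [hI]
    rfl
  have hy : (fun i => a (coordFun X i)) ∈ X := by
    rw [hX']
    intro p hp
    rw [← ev_alg]
    have : aeval (coordFun X) p = 0 := by
      ext x
      rw [aeval_coord]
      exact (hX' x).1 x.2 p hp
    rw [this, map_zero]
  refine ⟨⟨_, hy⟩, fun f => ?_⟩
  obtain ⟨p, rfl⟩ := exists_aeval_coord f
  rw [ev_alg, aeval_coord]

theorem point_ext {x y : X} (h : ∀ f : polyFun X, (f : X → ℂ) x = (f : X → ℂ) y) : x = y := by
  apply Subtype.ext
  funext i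
  have := h (coordFun X i)
  rwa [coordFun_apply, coordFun_apply] at this

/-- an algebra automorphism comes from a biregular map -/
theorem exists_map (hX : ∃ I : Set (MvPolynomial (Fin n) ℂ), X = {x | ∀ p ∈ I, eval x p = 0})
    (a : polyFun X ≃ₐ[ℂ] polyFun X) : ∃ (e : X ≃ X) (h1 : IsRegularMap e)
      (h2 : IsRegularMap e.symm), a = pull e h1 h2 := by
  have key : ∀ b : polyFun X ≃ₐ[ℂ] polyFun X, ∃ F : X → X, ∀ (f : polyFun X) (x : X),
      (b f : X → ℂ) x = (f : X → ℂ) (F x) := by
    intro b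
    have := fun x : X => exists_point hX ((evPt x).comp (b : polyFun X →ₐ[ℂ] polyFun X))
    choose F hF using this
    exact ⟨F, fun f x => hF x f⟩
  have reg : ∀ (b : polyFun X ≃ₐ[ℂ] polyFun X) (F : X → X), (∀ (f : polyFun X) (x : X),
      (b f : X → ℂ) x = (f : X → ℂ) (F x)) → IsRegularMap F := by
    intro b F hF i
    obtain ⟨p, hp⟩ := mem_polyFun.1 (b (coordFun X i)).2
    refine ⟨p, fun x => ?_⟩
    rw [← hp x, hF, coordFun_apply]
  obtain ⟨F, hF⟩ := key a
  obtain ⟨F', hF'⟩ := key a.symm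
  refine ⟨⟨F', F, ?_, ?_⟩, reg _ _ hF', reg _ _ hF, ?_⟩
  · intro x
    apply point_ext
    intro f
    rw [← hF, ← hF', AlgEquiv.symm_apply_apply]
  · intro x
    apply point_ext
    intro f
    rw [← hF', ← hF, AlgEquiv.apply_symm_apply]
  · ext f x
    rw [hF, pull_apply]
    rfl

/-- an antilinear involution comes from an antiregular involution -/
theorem exists_anti (hX : ∃ I : Set (MvPolynomial (Fin n) ℂ), X = {x | ∀ p ∈ I, eval x p = 0})
    (ν : polyFun X ≃+* polyFun X) (hν : Anti ν) (hν2 : ∀ f, ν (ν f) = f) :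
    ∃ (F : X → X) (h1 : ∀ x, F (F x) = x) (h2 : IsAntiregularMap F), ν = pullAnti F h1 h2 := by
  have key : ∃ F : X → X, ∀ (f : polyFun X) (x : X),
      (ν f : X → ℂ) x = conj ((f : X → ℂ) (F x)) := by
    have h1 : ∀ x : X, ∃ y : X, ∀ f : polyFun X, conj ((ν f : X → ℂ) x) = (f : X → ℂ) y := by
      intro x
      let a : polyFun X →ₐ[ℂ] ℂ :=
        { toRingHom := (starRingEnd ℂ).comp ((evPt x : polyFun X →+* ℂ).comp (ν : polyFun X →+* polyFun X))
          commutes' := by
            intro c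
            change conj (evPt x (ν (algebraMap ℂ (polyFun X) c))) = c
            rw [hν c, AlgHom.commutes]
            simp }
      obtain ⟨y, hy⟩ := exists_point hX a
      exact ⟨y, fun f => hy f⟩
    choose F hF using h1
    refine ⟨F, fun f x => ?_⟩
    rw [← hF, Complex.conj_conj]
  obtain ⟨F, hF⟩ := key
  have h1 : ∀ x, F (F x) = x := by
    intro x
    apply point_ext
    intro f
    have := hF (ν f) x
    rw [hν2, hF f (F x), Complex.conj_conj] at this
    exact this.symm
  have h2 : IsAntiregularMap F := by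
    intro i
    obtain ⟨p, hp⟩ := mem_polyFun.1 (ν (coordFun X i)).2
    refine ⟨p, fun x => ?_⟩
    rw [← hp x, hF, coordFun_apply, Complex.conj_conj]
  refine ⟨F, h1, h2, ?_⟩
  ext f x
  rw [hF, pullAnti_apply]

end Maps

end Pool.Agent.Helper43.RS
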