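import Pool.Agent.Helper43.RS.GeoB

namespace Pool.Agent.Helper43.RS

open scoped ComplexConjugate
open MvPolynomial

theorem hopf_trans_right {G : Type} [Group G] {H : Subalgebra ℂ (G → ℂ)} (hH : HopfFun H)
    {f : G → ℂ} (hf : f ∈ H) (k : G) : (fun g => f (g * k)) ∈ H := by
  obtain ⟨n, a, b, ha, hb, hab⟩ := hH.mul f hf
  have : (fun g => f (g * k)) = ∑ i, b i k • a i := by
    ext g
    simp [hab, mul_comm]
  rw [this]
  exact Subalgebra.sum_mem _ fun i _ => Subalgebra.smul_mem _ (ha i) _

theorem hopf_trans_left {G : Type} [Group G] {H : Subalgebra ℂ (G → ℂ)} (hH : HopfFun H)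
    {f : G → ℂ} (hf : f ∈ H) (k : G) : (fun g => f (k * g)) ∈ H := by
  obtain ⟨n, a, b, ha, hb, hab⟩ := hH.mul f hf
  have : (fun g => f (k * g)) = ∑ i, a i k • b i := by
    ext g
    simp [hab]
  rw [this]
  exact Subalgebra.sum_mem _ fun i _ => Subalgebra.smul_mem _ (hb i) _

theorem isRat_of_sep {G : Type} [Group G] {H : Subalgebra ℂ (G → ℂ)} (hH : HopfFun H)
    {R : Type} [CommRing R] [Algebra ℂ R] (ρ : G →* (R ≃ₐ[ℂ] R))
    (hs : ∀ r : R, ∃ (n : ℕ) (h : Fin n → G → ℂ) (s : Fin n → R), (∀ i, h i ∈ H) ∧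
      ∀ g, ρ g r = ∑ i, h i g • s i) : IsRat H (toRep ρ) := by
  intro r
  obtain ⟨n, h, s, h1, h2⟩ := hs r
  refine ⟨Submodule.span ℂ (Set.range fun g => ρ g r), ?_, ?_, ?_, ?_⟩
  · exact Submodule.subset_span ⟨1, by simp⟩
  · have : FiniteDimensional ℂ (Submodule.span ℂ (Set.range s)) :=
      FiniteDimensional.span_of_finite ℂ (Set.finite_range s)
    refine Submodule.finiteDimensional_of_le (S₂ := Submodule.span ℂ (Set.range s)) ?_
    rw [Submodule.span_le]
    rintro _ ⟨g, rfl⟩
    change ρ g r ∈ _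
    rw [h2]
    exact Submodule.sum_mem _ fun i _ => Submodule.smul_mem _ _ (Submodule.subset_span ⟨i, rfl⟩)
  · intro g w hw
    induction hw using Submodule.span_induction with
    | mem x hx =>
      obtain ⟨k, rfl⟩ := hx
      exact Submodule.subset_span ⟨g * k, by simp⟩
    | zero => simp
    | add x y _ _ hx hy =>
      rw [map_add]
      exact Submodule.add_mem _ hx hy
    | smul c x _ hx =>
      rw [map_smul]
      exact Submodule.smul_mem _ _ hx
  · intro w hw φ
    induction hw using Submodule.span_induction with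
    | mem x hx =>
      obtain ⟨k, rfl⟩ := hx
      have : (fun g => φ ((toRep ρ) g ((fun g => ρ g r) k))) =
          ∑ i, φ (s i) • fun g => h i (g * k) := by
        ext g
        have e : (toRep ρ) g (ρ k r) = ρ (g * k) r := by simp
        rw [Finset.sum_apply]
        change φ ((toRep ρ) g (ρ k r)) = _
        rw [e, h2, map_sum]
        refine Finset.sum_congr rfl fun i _ => ?_
        rw [map_smul, smul_eq_mul, Pi.smul_apply, smul_eq_mul, mul_comm]
      rw [this]
      exact Subalgebra.sum_mem _ fun i _ =>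
        Subalgebra.smul_mem _ (hopf_trans_right hH (h1 i) k) _
    | zero =>
      simp only [map_zero]
      exact H.zero_mem
    | add x y _ _ hx hy =>
      simp only [map_add]
      exact H.add_mem hx hy
    | smul c x _ hx =>
      simp only [map_smul]
      exact H.smul_mem hx c

section Action

variable {m n : ℕ} {G : Subgroup (GL (Fin m) ℂ)} {X : Set (Fin n → ℂ)} [MulAction G X]

theorem regular_smul (hact : IsRegularAction G X) (g : G) :
    IsRegularMap (fun x : X => g • x) := by
  intro i
  obtain ⟨p, hp⟩ := hact i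
  refine ⟨bind₁ (Sum.elim (fun s => C (entries (g : GL (Fin m) ℂ) s)) MvPolynomial.X) p,
    fun x => ?_⟩
  rw [hp, ← aeval_eq_eval, ← aeval_eq_eval, aeval_bind₁]
  congr 2
  funext s
  rcases s with s | s <;> simp

/-- the action on functions -/
noncomputable def rho (hact : IsRegularAction G X) : G →* (polyFun X ≃ₐ[ℂ] polyFun X) where
  toFun g := pull (MulAction.toPerm g) (regular_smul hact g) (by
    intro i
    obtain ⟨p, hp⟩ := regular_smul hact g⁻¹ i
    exact ⟨p, fun x => by rw [← hp x]; rfl⟩)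
  map_one' := by
    ext f x
    rw [pull_apply]
    simp
  map_mul' g h := by
    ext f x
    simp only [pull_apply, AlgEquiv.mul_apply]
    simp [mul_smul]

theorem rho_apply (hact : IsRegularAction G X) (g : G) (f : polyFun X) (x : X) :
    (rho hact g f : X → ℂ) x = (f : X → ℂ) (g⁻¹ • x) := rfl

/-- separated functions -/
def Sep (F : G → X → ℂ) : Prop :=
  ∃ (k : ℕ) (h : Fin k → G → ℂ) (s : Fin k → polyFun X), (∀ i, h i ∈ groupFun G) ∧
    ∀ g x, F g x = ∑ i, h i g * (s i : X → ℂ) x

omit [MulAction G X] in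
theorem sep_fintype {F : G → X → ℂ} {ι : Type} [Fintype ι] (h : ι → G → ℂ)
    (s : ι → polyFun X) (hh : ∀ i, h i ∈ groupFun G)
    (hs : ∀ g x, F g x = ∑ i, h i g * (s i : X → ℂ) x) : Sep F := by
  refine ⟨Fintype.card ι, fun i => h ((Fintype.equivFin ι).symm i),
    fun i => s ((Fintype.equivFin ι).symm i), fun i => hh _, ?_⟩
  intro g x
  rw [hs]
  exact (Equiv.sum_comp (Fintype.equivFin ι).symm (fun i => h i g * (s i : X → ℂ) x)).symm

omit [MulAction G X] in
theorem sep_eval (p : MvPolynomial (((Fin m × Fin m) ⊕ (Fin m × Fin m)) ⊕ Fin n) ℂ) :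
    Sep (fun (g : G) (x : X) => eval (Sum.elim (entries (g : GL (Fin m) ℂ))
      (x : Fin n → ℂ)) p) := by
  induction p using MvPolynomial.induction_on with
  | C c =>
    refine sep_fintype (ι := Unit) (fun _ _ => c) (fun _ => 1) ?_ ?_
    · intro _
      exact (groupFun G).algebraMap_mem c
    · intro g x
      simp
  | add p q hp hq =>
    obtain ⟨k, h, s, h1, h2⟩ := hp
    obtain ⟨k', h', s', h1', h2'⟩ := hq
    beta_reduce at h2 h2'
    refine sep_fintype (ι := Fin k ⊕ Fin k') (Sum.elim h h') (Sum.elim s s') ?_ ?_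
    · rintro (i | i)
      · exact h1 i
      · exact h1' i
    · intro g x
      rw [map_add, h2, h2']
      simp
  | mul_X p t hp =>
    obtain ⟨k, h, s, h1, h2⟩ := hp
    beta_reduce at h2
    rcases t with t | t
    · refine sep_fintype (ι := Fin k)
        (fun i => h i * fun g : G => entries (g : GL (Fin m) ℂ) t) s ?_ ?_
      · intro i
        exact (groupFun G).mul_mem (h1 i) (coord_mem G t)
      · intro g x
        rw [map_mul, h2, eval_X, Sum.elim_inl, Finset.sum_mul]
        refine Finset.sum_congr rfl fun i _ => ?_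
        simp only [Pi.mul_apply]
        ring
    · refine sep_fintype (ι := Fin k) h (fun i => s i * coordFun X t) h1 ?_
      intro g x
      rw [map_mul, h2, eval_X, Sum.elim_inr, Finset.sum_mul]
      refine Finset.sum_congr rfl fun i _ => ?_
      rw [Subalgebra.coe_mul, Pi.mul_apply, coordFun_apply]
      ring

theorem isRat_rho (hact : IsRegularAction G X) : IsRat (groupFun G) (toRep (rho hact)) := by
  apply isRat_of_sep (hopf_groupFun G)
  intro f
  obtain ⟨p, hp⟩ := mem_polyFun.1 f.2
  choose q hq using (id hact : IsRegularAction G X)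
  have h1 : ∀ (g : G) (x : X), (f : X → ℂ) (g • x) =
      eval (Sum.elim (entries (g : GL (Fin m) ℂ)) (x : Fin n → ℂ)) (bind₁ q p) := by
    intro g x
    rw [hp, ← aeval_eq_eval, ← aeval_eq_eval, aeval_bind₁]
    have : ((g • x : X) : Fin n → ℂ) = fun i =>
        (aeval (Sum.elim (entries (g : GL (Fin m) ℂ)) (x : Fin n → ℂ))) (q i) := by
      funext i
      rw [hq i g x, ← aeval_eq_eval]
    rw [this]
  obtain ⟨k, h, s, h2, h3⟩ := sep_eval (G := G) (X := X) (bind₁ q p)
  refine ⟨k, fun i g => h i g⁻¹, s, fun i => (hopf_groupFun G).inv _ (h2 i), ?_⟩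
  intro g
  ext x
  beta_reduce at h3
  rw [rho_apply, h1, h3]
  simp

end Action

end Pool.Agent.Helper43.RS
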