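import Pool.Agent.Helper43.RS.GeoD

namespace Pool.Agent.Helper43.RS

open scoped ComplexConjugate
open MvPolynomial

variable {m n : ℕ} {G : Subgroup (GL (Fin m) ℂ)} {X : Set (Fin n → ℂ)} [MulAction G X]

omit [MulAction G X] in
theorem reg_id : IsRegularMap (id : X → X) := fun i => ⟨MvPolynomial.X i, fun x => by simp⟩

omit [MulAction G X] in
theorem reg_comp {f g : X → X} (hf : IsRegularMap f) (hg : IsRegularMap g) :
    IsRegularMap (fun x => f (g x)) := by
  intro i
  have h1 := comp_regular (h := (coordFun X i : X → ℂ)) hf (coordFun X i).2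
  have h2 := comp_regular (h := fun x => (coordFun X i : X → ℂ) (f x)) hg h1
  obtain ⟨p, hp⟩ := mem_polyFun.1 h2
  exact ⟨p, fun x => by rw [← hp x]; rfl⟩

theorem equiv_refl {σ : G ≃* G} (μ : EqRealStructure σ X) : μ.Equiv μ :=
  ⟨Equiv.refl X, ⟨reg_id, reg_id, fun _ _ => rfl⟩, fun _ => rfl⟩

theorem equiv_symm {σ : G ≃* G} {μ ν : EqRealStructure σ X} (h : μ.Equiv ν) : ν.Equiv μ := by
  obtain ⟨φ, hφ, h⟩ := h
  refine ⟨φ.symm, ⟨hφ.reg_symm, hφ.reg, fun g x => ?_⟩, fun x => ?_⟩
  · rw [Equiv.symm_apply_eq, hφ.equivar, Equiv.apply_symm_apply]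
  · rw [h, Equiv.symm_symm, Equiv.symm_apply_apply, Equiv.symm_apply_apply]

theorem equiv_trans {σ : G ≃* G} {μ ν κ : EqRealStructure σ X} (h : μ.Equiv ν) (h' : ν.Equiv κ) :
    μ.Equiv κ := by
  obtain ⟨φ, hφ, h⟩ := h
  obtain ⟨ψ, hψ, h'⟩ := h'
  have e1 : IsRegularMap (φ.trans ψ) := reg_comp (f := ψ) (g := φ) hψ.reg hφ.reg
  have e2 : IsRegularMap (φ.trans ψ).symm :=
    reg_comp (f := φ.symm) (g := ψ.symm) hφ.reg_symm hψ.reg_symm
  refine ⟨φ.trans ψ, ⟨e1, e2, fun g x => ?_⟩, fun x => ?_⟩
  · rw [Equiv.trans_apply, Equiv.trans_apply, hφ.equivar, hψ.equivar]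
  · rw [h', h]
    rfl

/-- The equivalence relation on equivariant real structures. -/
def rsSetoid (σ : G ≃* G) (X : Set (Fin n → ℂ)) [MulAction G X] :
    Setoid (EqRealStructure σ X) where
  r := EqRealStructure.Equiv
  iseqv := ⟨equiv_refl, equiv_symm, equiv_trans⟩

theorem geo_main (hcore : ST_CORE) (hcx : ST_CX) (hG : IsReductiveGroup G) {σ : G ≃* G}
    (hσ : IsRealGroupStructure σ) (hX : IsNormalAffineVariety X) (hact : IsRegularAction G X)
    (hc : HasComplexityOne G X) : Finite (Quotient (rsSetoid σ X)) := by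
  classical
  obtain ⟨hGc, G₀, hle, hG0, hind, hlin⟩ := hG
  obtain ⟨B, hB, -, x₀, hx₀⟩ := hc
  have hBle : B ≤ G₀ := le_comp hG0.closed hind hB.le hB.conn.irreducible
  have hdom : IsDomain (polyFun X) := hX.irreducible
  have hic : IsIntegrallyClosed (polyFun X) := hX.normal
  have hft : Algebra.FiniteType ℂ (polyFun X) := finiteType_polyFun
  set H := groupFun G with hH
  have hopf : HopfFun H := hopf_groupFun G
  let K : Subgroup G := G₀.subgroupOf G
  let B₀ : Subgroup K := (B.subgroupOf G).subgroupOf K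
  let e : K ≃* G₀ := Subgroup.subgroupOfEquivOfLe hle
  have hopfK : HopfFun (resFun H K) := hopf_res hopf K
  have irrK : IrrFun (resFun H K) := irr_transfer e (res_to_sub hle) hG0.irreducible
  have linK : LinRed (resFun H K) := lin_transfer e (res_to_sub hle) hlin
  -- the Borel subgroup
  let eB : B₀ ≃* B :=
    { toFun := fun b => ⟨((b : K) : G), b.2⟩
      invFun := fun b => ⟨⟨⟨b, hB.le b.2⟩, hBle b.2⟩, b.2⟩
      left_inv := fun b => rfl
      right_inv := fun b => rfl
      map_mul' := fun a b => rfl }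
  have irrB : IrrFun (resFun (resFun H K) B₀) := by
    refine irr_transfer eB ?_ hB.conn.irreducible
    intro f hf
    obtain ⟨h1, hh1, hf1⟩ := mem_resFun.1 hf
    obtain ⟨h2, hh2, hf2⟩ := mem_resFun.1 hh1
    obtain ⟨p, hp⟩ := mem_groupFun.1 hh2
    refine mem_groupFun.2 ⟨p, fun x => ?_⟩
    rw [hf1, hf2, hp]
    rfl
  have solvB : Group.IsSolvable B₀ := by
    have := hB.solv
    exact Group.isSolvable_of_isSolvable_injective (f := eB.toMonoidHom) eB.injective
  let ρ := rho hact
  have hrat : IsRat H (toRep ρ) := isRat_rho hact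
  have hratK : IsRat (resFun H K) (toRep (ρ.comp K.subtype)) := isRat_res K (toRep ρ) hrat
  have hratB : IsRat (resFun (resFun H K) B₀)
      (toRep ((ρ.comp K.subtype).comp B₀.subtype)) :=
    isRat_res B₀ (toRep (ρ.comp K.subtype)) hratK
  have hcx1 : CxOne ((ρ.comp K.subtype).comp B₀.subtype) := by
    refine hcx B₀ (resFun (resFun H K) B₀) (hopf_res hopfK B₀) irrB (polyFun X)
      ((ρ.comp K.subtype).comp B₀.subtype) hratB (evPt x₀) (orbitIdeal (G := G) B X x₀) ?_ ?_
    · intro r
      constructor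
      · intro hr b
        exact hr ((b : K) : G)⁻¹ (by
          rw [Subgroup.coe_inv]
          exact B.inv_mem b.2)
      · intro hr b hb
        have h1 := hr ⟨⟨b⁻¹, by
          change ((b⁻¹ : G) : GL (Fin m) ℂ) ∈ G₀
          rw [Subgroup.coe_inv]
          exact G₀.inv_mem (hBle hb)⟩, by
          change ((b⁻¹ : G) : GL (Fin m) ℂ) ∈ B
          rw [Subgroup.coe_inv]
          exact B.inv_mem hb⟩
        change (r : X → ℂ) ((b⁻¹)⁻¹ • x₀) = 0 at h1
        rwa [inv_inv] at h1
    · exact hx₀.ge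
  have hsetup : Setup (resFun H K) B₀ (ρ.comp K.subtype) :=
    ⟨hopfK, irrK, linK, solvB, irrB, hic, hft, hratK, hcx1⟩
  obtain ⟨T, hT1, hT2⟩ := hcore G H hopf K B₀ (polyFun X) ρ hrat hsetup σ (by
    intro g
    constructor
    · intro hg
      exact sigma_comp hle hG0.closed hind hG0.irreducible hσ g hg
    · intro hg
      have := sigma_comp hle hG0.closed hind hG0.irreducible hσ (σ g) hg
      rw [hσ.invol] at this
      exact this)
  -- algebraic real structures and geometric ones
  let alg : EqRealStructure σ X → (polyFun X ≃+* polyFun X) :=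
    fun μ => pullAnti μ.toFun μ.invol μ.antireg
  have halg : ∀ μ, IsRS ρ σ (alg μ) := by
    intro μ
    refine ⟨pullAnti_anti _ _ _, ?_, ?_⟩
    · intro f
      ext x
      simp only [alg, pullAnti_apply, μ.invol, Complex.conj_conj]
    · intro g f
      ext x
      simp only [alg, ρ, pullAnti_apply, rho_apply]
      have : g⁻¹ • μ.toFun x = μ.toFun ((σ g)⁻¹ • x) := by
        rw [μ.equivar, map_inv, hσ.invol]
      rw [this]
  have hback : ∀ ν ∈ T, ∃ μ : EqRealStructure σ X, alg μ = ν := by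
    intro ν hν
    obtain ⟨h1, h2, h3⟩ := hT1 ν hν
    obtain ⟨F, hF1, hF2, hF3⟩ := exists_anti hX.closed ν h1 h2
    refine ⟨⟨F, hF1, hF2, ?_⟩, hF3.symm⟩
    intro g x
    apply point_ext
    intro f
    have h8 : ∀ (g : G) (f : polyFun X) (x : X),
        (f : X → ℂ) (g • F x) = (f : X → ℂ) (F (σ g • x)) := by
      intro g f x
      have h4 := congrArg (fun u : polyFun X => (u : X → ℂ) x) (h3 g⁻¹ f)
      have e1 : (ν (ρ g⁻¹ f) : X → ℂ) x = conj ((f : X → ℂ) (g • F x)) := by
        rw [hF3, pullAnti_apply]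
        change conj ((f : X → ℂ) (g⁻¹⁻¹ • F x)) = _
        rw [inv_inv]
      have e2 : (ρ (σ g⁻¹) (ν f) : X → ℂ) x = conj ((f : X → ℂ) (F (σ g • x))) := by
        rw [hF3]
        change conj ((f : X → ℂ) (F ((σ g⁻¹)⁻¹ • x))) = _
        rw [map_inv, inv_inv]
      beta_reduce at h4
      rw [e1, e2] at h4
      have := congrArg conj h4
      simpa using this
    have h9 := h8 (σ g) f x
    rw [hσ.invol] at h9
    exact h9.symm
  -- conclusion
  have hfin : ∀ μ : EqRealStructure σ X, ∃ ν ∈ T, ∃ κ : EqRealStructure σ X, alg κ = ν ∧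
      κ.Equiv μ := by
    intro μ
    obtain ⟨ν, hν, a, ha, h⟩ := hT2 (alg μ) (halg μ)
    obtain ⟨κ, hκ⟩ := hback ν hν
    refine ⟨ν, hν, κ, hκ, ?_⟩
    obtain ⟨φ, h1, h2, h3⟩ := exists_map hX.closed a
    refine ⟨φ, ⟨h1, h2, ?_⟩, ?_⟩
    · intro g x
      have h4 := ha g⁻¹
      apply point_ext
      intro f
      have h4' : ∀ (g : G) (f : polyFun X) (x : X),
          (f : X → ℂ) (g • φ.symm x) = (f : X → ℂ) (φ.symm (g • x)) := by
        intro g f x
        have h5 := congrArg (fun u : polyFun X ≃ₐ[ℂ] polyFun X => (u f : X → ℂ) x) (ha g⁻¹)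
        simp only [h3, AlgEquiv.mul_apply, pull_apply, ρ, rho_apply, inv_inv] at h5
        exact h5
      have h6 : ∀ (g : G) (x : X), g • φ.symm x = φ.symm (g • x) :=
        fun g x => point_ext fun f => h4' g f x
      have h7 := h6 g (φ x)
      rw [Equiv.symm_apply_apply] at h7
      rw [h7, Equiv.apply_symm_apply]
    · intro x
      apply point_ext
      intro f
      have h5 := congrArg (fun u : polyFun X => (u : X → ℂ) x) (h f)
      have h6 : a.symm f = pull φ.symm h2 h1 f := by
        rw [AlgEquiv.symm_apply_eq, h3]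
        ext y
        simp [pull_apply]
      rw [h6, ← hκ, h3] at h5
      simp only [alg, pullAnti_apply, pull_apply, Equiv.symm_symm] at h5
      have := congrArg conj h5
      simpa using this
  let F : EqRealStructure σ X → T := fun μ => ⟨(hfin μ).choose, (hfin μ).choose_spec.1⟩
  have hF : ∀ μ μ' : EqRealStructure σ X, F μ = F μ' → μ.Equiv μ' := by
    intro μ μ' h
    obtain ⟨-, κ, hκ, h1⟩ := (hfin μ).choose_spec
    obtain ⟨-, κ', hκ', h1'⟩ := (hfin μ').choose_spec
    have h2 : alg κ = alg κ' := by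
      rw [hκ, hκ']
      exact congrArg Subtype.val h
    have h3 : κ = κ' := by
      have : κ.toFun = κ'.toFun := by
        funext x
        apply point_ext
        intro f
        have h4 := congrArg (fun u : polyFun X ≃+* polyFun X => (u f : X → ℂ) x) h2
        simp only [alg, pullAnti_apply] at h4
        have := congrArg conj h4
        simpa using this
      cases κ
      cases κ'
      cases this
      rfl
    rw [← h3] at h1'
    exact equiv_trans (equiv_symm h1) h1'
  refine Finite.of_injective (fun q : Quotient (rsSetoid σ X) => F q.out) ?_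
  intro q q' h
  have h1 := hF _ _ h
  have h2 : (Quotient.mk (rsSetoid σ X) q.out) = Quotient.mk (rsSetoid σ X) q'.out :=
    Quotient.sound h1
  rwa [Quotient.out_eq, Quotient.out_eq] at h2

end Pool.Agent.Helper43.RS
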