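import Pool.Agent.Helper43.RS.Defs

/-!
# Statements of the modules (affine complexity-one varieties, real structures)
-/

namespace Pool.Agent.Helper43.RS

open scoped ComplexConjugate
open MvPolynomial

/-! ## Real algebraic geometry and linear groups -/

/-- number of nondegenerate real zeros -/
def ST_BEZ : Prop :=
  ∀ (N d : ℕ) (g : Fin N → MvPolynomial (Fin N) ℝ), (∀ j, (g j).totalDegree ≤ d) →
    ∀ S : Finset (Fin N → ℝ),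
      (∀ p ∈ S, (∀ j, eval p (g j) = 0) ∧
        (Matrix.of fun j i => eval p (pderiv i (g j))).det ≠ 0) →
      S.card ≤ (d + 1) ^ N

/-- a real algebraic set has boundedly many disjoint nonempty clopen pieces -/
def ST_FC : Prop :=
  ∀ (N : ℕ) (f : MvPolynomial (Fin N) ℝ), (∀ x, 0 ≤ eval x f) →
    ∃ K : ℕ, ∀ (k : ℕ) (V : Fin k → Set (Fin N → ℝ)), (∀ i, (V i).Nonempty) →
      (∀ i j, i ≠ j → Disjoint (V i) (V j)) →
      (∀ i, ∃ U, IsOpen U ∧ V i = U ∩ {x | eval x f = 0}) →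
      (∀ i, IsClosed (V i)) → k ≤ K

/-- entrywise close to the identity -/
def Near {n : ℕ} (ε : ℝ) (x : GL (Fin n) ℂ) : Prop :=
  ∀ i j, ‖(x : Matrix (Fin n) (Fin n) ℂ) i j - (1 : Matrix (Fin n) (Fin n) ℂ) i j‖ < ε

/-- square roots close to 1 of elements of a Zariski closed group stay in the group -/
def ST_SQA : Prop :=
  ∀ (n : ℕ) (A : Subgroup (GL (Fin n) ℂ)), ZClosed (A : Set (GL (Fin n) ℂ)) →
    ∃ ε > 0, ∀ y : GL (Fin n) ℂ, Near ε y → y * y ∈ A → y ∈ A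

/-- existence and uniqueness of square roots near 1 -/
def ST_SQB : Prop :=
  (∀ (n : ℕ) (ε : ℝ), 0 < ε → ∃ δ > 0, ∀ x : GL (Fin n) ℂ, Near δ x →
    ∃ y : GL (Fin n) ℂ, Near ε y ∧ y * y = x) ∧
  ∀ n : ℕ, ∃ ε > 0, ∀ y z : GL (Fin n) ℂ, Near ε y → Near ε z → y * y = z * z → y = z

/-- finiteness of the first real Galois cohomology set of a linear algebraic group -/
def ST_BS : Prop :=
  ∀ (n : ℕ) (A : Subgroup (GL (Fin n) ℂ)), ZClosed (A : Set (GL (Fin n) ℂ)) →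
    (∀ a ∈ A, cj a ∈ A) →
    ∃ T : Finset (GL (Fin n) ℂ), (∀ b ∈ T, b ∈ A) ∧
      ∀ a ∈ A, a * cj a = 1 → ∃ b ∈ T, ∃ x ∈ A, a = x * b * (cj x)⁻¹

/-- the same for groups of algebra automorphisms defined by conditions on a finite
dimensional generating subspace -/
def ST_LOC : Prop :=
  ∀ (R : Type) [CommRing R] [Algebra ℂ R] (V : Submodule ℂ R), FiniteDimensional ℂ V →
    Algebra.adjoin ℂ (V : Set R) = ⊤ →
    ∀ (A : Subgroup (R ≃ₐ[ℂ] R)) (K : AffineSubspace ℂ (V →ₗ[ℂ] R)),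
    (∀ a : R ≃ₐ[ℂ] R, a ∈ A ↔ (∀ v ∈ V, a v ∈ V) ∧ a.toLinearMap ∘ₗ V.subtype ∈ K) →
    ∀ μ : R ≃+* R, Anti μ → (∀ r, μ (μ r) = r) → (∀ v ∈ V, μ v ∈ V) →
    (∀ a ∈ A, ∃ a' ∈ A, ∀ r, a' r = μ (a (μ r))) →
    ∃ T : Finset (R ≃ₐ[ℂ] R), (∀ b ∈ T, b ∈ A ∧ ∀ r, b (μ (b (μ r))) = r) ∧
      ∀ a ∈ A, (∀ r, a (μ (a (μ r))) = r) →
        ∃ b ∈ T, ∃ x ∈ A, ∀ r, a (μ r) = x (b (μ (x.symm r)))

/-! ## Group theory -/

def ST_GRP : Prop :=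
  ∀ (E : Type) [Group E] (A A₁ A₂ : Subgroup E) (S : Set E), A₂ ≤ A₁ → A₁ ≤ A →
    A₁.relIndex A ≠ 0 →
    (∃ (N : ℕ) (φ : A₁ →* Multiplicative (Fin N → ℤ)), ∀ a, φ a = 1 ↔ (a : E) ∈ A₂) →
    (∀ x ∈ (A : Set E) ∪ S, ∀ a ∈ A₁, x * a * x⁻¹ ∈ A₁) →
    (∀ x ∈ (A : Set E) ∪ S, ∀ a ∈ A₂, x * a * x⁻¹ ∈ A₂) →
    (∀ s ∈ S, s * s = 1) → (∀ s ∈ S, ∀ a ∈ A, a * s * (a * s) = 1 → a * s ∈ S) →
    (∀ s ∈ S, ∀ s' ∈ S, s * s'⁻¹ ∈ A) →
    (∀ s ∈ S, ∃ T : Finset E, ∀ a ∈ A₂, a * s * (a * s) = 1 →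
      ∃ b ∈ T, b ∈ S ∧ ∃ x ∈ A₂, a * s = x * b * x⁻¹) →
    ∃ T : Finset E, (∀ b ∈ T, b ∈ S) ∧ ∀ s ∈ S, ∃ b ∈ T, ∃ x ∈ A, s = x * b * x⁻¹

/-! ## Representations -/

/-- Lie-Kolchin -/
def ST_LK : Prop :=
  ∀ (B : Type) [Group B] (H : Subalgebra ℂ (B → ℂ)), HopfFun H → IrrFun H → Group.IsSolvable B →
    ∀ (V : Type) [AddCommGroup V] [Module ℂ V] [FiniteDimensional ℂ V] [Nontrivial V]
      (ρ : Representation ℂ B V), IsRat H ρ →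
      ∃ v : V, v ≠ 0 ∧ ∃ lam : B → ℂ, ∀ b, ρ b v = lam b • v

/-- Reynolds decomposition -/
def ST_REY : Prop :=
  ∀ (G : Type) [Group G] (H : Subalgebra ℂ (G → ℂ)), HopfFun H → LinRed H →
    ∀ (V : Type) [AddCommGroup V] [Module ℂ V] (ρ : Representation ℂ G V), IsRat H ρ →
      IsCompl (ρ.invariants) (Submodule.span ℂ {v | ∃ (g : G) (w : V), v = ρ g w - w})

/-- Hilbert: the invariants are finitely generated -/
def ST_HIL : Prop :=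
  ∀ (G : Type) [Group G] (H : Subalgebra ℂ (G → ℂ)), HopfFun H → LinRed H →
    ∀ (R : Type) [CommRing R] [Algebra ℂ R] [Algebra.FiniteType ℂ R]
      (ρ : G →* (R ≃ₐ[ℂ] R)), IsRat H (toRep ρ) → (invt ρ).FG

/-- no invariants: a finite dimensional generating subspace stable under all equivariant
automorphisms -/
def ST_FDV : Prop :=
  ∀ (G : Type) [Group G] (H : Subalgebra ℂ (G → ℂ)), HopfFun H → LinRed H →
    ∀ (R : Type) [CommRing R] [Algebra ℂ R] [Algebra.FiniteType ℂ R]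
      (ρ : G →* (R ≃ₐ[ℂ] R)), IsRat H (toRep ρ) →
      (∀ r ∈ invt ρ, ∃ c : ℂ, r = algebraMap ℂ R c) →
      ∃ V : Submodule ℂ R, FiniteDimensional ℂ V ∧ Algebra.adjoin ℂ (V : Set R) = ⊤ ∧
        ∀ a ∈ eqAut ρ, ∀ v ∈ V, a v ∈ V

/-- rank one modules of covariants are finitely generated -/
def ST_COV : Prop :=
  ∀ (G : Type) [Group G] (H : Subalgebra ℂ (G → ℂ)), HopfFun H → LinRed H →
    ∀ (R : Type) [CommRing R] [IsDomain R] [Algebra ℂ R] [Algebra.FiniteType ℂ R]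
      (ρ : G →* (R ≃ₐ[ℂ] R)), IsRat H (toRep ρ) →
      ∀ S : Submodule ℂ R, (∀ c ∈ invt ρ, ∀ s ∈ S, c * s ∈ S) →
      (∀ r ∈ S, ∀ r' ∈ S, r' ≠ 0 → ∃ c ∈ invt ρ, ∃ c' ∈ invt ρ, c ≠ 0 ∧ c * r = c' * r') →
      ∃ T : Finset R, (∀ t ∈ T, t ∈ S) ∧
        ∀ r ∈ S, ∃ f : R → R, (∀ t, f t ∈ invt ρ) ∧ r = ∑ t ∈ T, f t * t

/-- the ring is generated by the translates of finitely many `B`-eigenvectors -/
def ST_GEN : Prop :=
  ∀ (G : Type) [Group G] (H : Subalgebra ℂ (G → ℂ)), HopfFun H → LinRed H →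
    ∀ B : Subgroup G, Group.IsSolvable B → IrrFun (resFun H B) →
    ∀ (R : Type) [CommRing R] [Algebra ℂ R] [Algebra.FiniteType ℂ R]
      (ρ : G →* (R ≃ₐ[ℂ] R)), IsRat H (toRep ρ) →
      ∃ (k : ℕ) (lam : Fin k → B → ℂ) (r : Fin k → R),
        (∀ i, r i ∈ semi (ρ.comp B.subtype) (lam i)) ∧ (∀ i, r i ≠ 0) ∧
        Algebra.adjoin ℂ {x | ∃ (g : G) (i : Fin k), x = ρ g (r i)} = ⊤

/-! ## Complexity one -/

/-- algebraic dependence over `ℂ` of two elements -/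
def AlgDep {K : Type} [CommRing K] [Algebra ℂ K] (f g : K) : Prop :=
  ∃ p : MvPolynomial (Fin 2) ℂ, p ≠ 0 ∧ aeval ![f, g] p = 0

/-- the fraction `p / q` is an invariant rational function -/
def RatInv {B : Type} [Group B] {R : Type} [CommRing R] [Algebra ℂ R]
    (ρ : B →* (R ≃ₐ[ℂ] R)) (p q : R) : Prop :=
  q ≠ 0 ∧ ∀ b, ρ b p * q = p * ρ b q

/-- the field of invariant rational functions has transcendence degree at most one -/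
def CxOne {B : Type} [Group B] {R : Type} [CommRing R] [IsDomain R] [Algebra ℂ R]
    (ρ : B →* (R ≃ₐ[ℂ] R)) : Prop :=
  ∀ p q p' q' : R, RatInv ρ p q → RatInv ρ p' q' →
    AlgDep (algebraMap R (FractionRing R) p / algebraMap R (FractionRing R) q)
      (algebraMap R (FractionRing R) p' / algebraMap R (FractionRing R) q')

/-- an orbit of codimension at most one bounds the transcendence degree of the field of
invariants -/
def ST_CX : Prop :=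
  ∀ (B : Type) [Group B] (H : Subalgebra ℂ (B → ℂ)), HopfFun H → IrrFun H →
    ∀ (R : Type) [CommRing R] [IsDomain R] [IsIntegrallyClosed R] [Algebra ℂ R]
      [Algebra.FiniteType ℂ R] (ρ : B →* (R ≃ₐ[ℂ] R)), IsRat H (toRep ρ) →
      ∀ (x : R →ₐ[ℂ] ℂ) (P : Ideal R), (∀ r, r ∈ P ↔ ∀ b, x (ρ b r) = 0) →
      ringKrullDim R ≤ ringKrullDim (R ⧸ P) + 1 → CxOne ρ

/-- `K^B = Frac(R^G)` when there is a nonconstant invariant -/
def ST_KB : Prop :=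
  ∀ (G : Type) [Group G] (H : Subalgebra ℂ (G → ℂ)), HopfFun H → IrrFun H →
    ∀ B : Subgroup G,
    ∀ (R : Type) [CommRing R] [IsDomain R] [IsIntegrallyClosed R] [Algebra ℂ R]
      [Algebra.FiniteType ℂ R] (ρ : G →* (R ≃ₐ[ℂ] R)), IsRat H (toRep ρ) →
      CxOne (ρ.comp B.subtype) →
      ∀ t ∈ invt ρ, (∀ c : ℂ, t ≠ algebraMap ℂ R c) →
      ∀ p q : R, RatInv (ρ.comp B.subtype) p q →
        ∃ c ∈ invt ρ, ∃ c' ∈ invt ρ, c ≠ 0 ∧ c * p = c' * q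

/-! ## Affine curves -/

/-- coordinate rings of smooth affine curves -/
structure CurveRing (O : Type) [CommRing O] [Algebra ℂ O] : Prop where
  dom : IsDomain O
  ic : IsIntegrallyClosed O
  ft : Algebra.FiniteType ℂ O
  nonconst : ∃ t : O, ∀ c : ℂ, t ≠ algebraMap ℂ O c
  dep : ∀ f g : O, AlgDep f g

/-- the orders at the places at infinity; `w i f` is only meaningful for `f ≠ 0` -/
structure Places (O : Type) [CommRing O] [Algebra ℂ O] (n : ℕ) (w : Fin n → O → ℤ) : Prop where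
  mul : ∀ i, ∀ f g : O, f ≠ 0 → g ≠ 0 → w i (f * g) = w i f + w i g
  add : ∀ i, ∀ f g : O, f ≠ 0 → g ≠ 0 → f + g ≠ 0 → min (w i f) (w i g) ≤ w i (f + g)
  const : ∀ i, ∀ c : ℂ, c ≠ 0 → w i (algebraMap ℂ O c) = 0
  res : ∀ i, ∀ f g : O, f ≠ 0 → g ≠ 0 → w i f = w i g →
    ∃ c : ℂ, c ≠ 0 ∧ (f - c • g = 0 ∨ w i f < w i (f - c • g))
  nonneg : ∀ f : O, f ≠ 0 → (∀ i, 0 ≤ w i f) → ∃ c : ℂ, f = algebraMap ℂ O c
  perm : ∀ a : O ≃ₐ[ℂ] O, ∀ i, ∃ j, ∀ f : O, f ≠ 0 → w i (a f) = w j f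

def ST_PLACE : Prop :=
  ∀ (O : Type) [CommRing O] [Algebra ℂ O], CurveRing O →
    ∃ (n : ℕ) (w : Fin n → O → ℤ), Places O n w

def ST_UNITS : Prop :=
  ∀ (O : Type) [CommRing O] [Algebra ℂ O], CurveRing O →
    ∃ (n : ℕ) (v : Oˣ →* Multiplicative (Fin n → ℤ)),
      ∀ u, v u = 1 → ∃ c : ℂ, (u : O) = algebraMap ℂ O c

def ST_CURVE : Prop :=
  ∀ (O : Type) [CommRing O] [Algebra ℂ O], CurveRing O →
    ∀ Q : Subgroup (O ≃ₐ[ℂ] O), Infinite Q →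
      Nonempty (O ≃ₐ[ℂ] Polynomial ℂ) ∨ Nonempty (O ≃ₐ[ℂ] LaurentPolynomial ℂ)

/-! ## Structure of the group of equivariant automorphisms -/

/-- `ψ` is a linear or antilinear ring automorphism compatible with the action -/
def Compat {G : Type} [Group G] {R : Type} [CommRing R] [Algebra ℂ R]
    (ρ : G →* (R ≃ₐ[ℂ] R)) (ψ : R ≃+* R) : Prop :=
  (Anti ψ ∨ ∀ c : ℂ, ψ (algebraMap ℂ R c) = algebraMap ℂ R c) ∧
    ∃ σ : G ≃* G, ∀ g r, ψ (ρ g r) = ρ (σ g) (ψ r)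

/-- The structure statement. -/
def StrOut {G : Type} [Group G] {R : Type} [CommRing R] [Algebra ℂ R]
    (ρ : G →* (R ≃ₐ[ℂ] R)) : Prop :=
  ∃ A₁ A₂ : Subgroup (R ≃ₐ[ℂ] R), A₂ ≤ A₁ ∧ A₁ ≤ eqAut ρ ∧ A₁.relIndex (eqAut ρ) ≠ 0 ∧
    (∃ (N : ℕ) (φ : A₁ →* Multiplicative (Fin N → ℤ)),
      ∀ a, φ a = 1 ↔ (a : R ≃ₐ[ℂ] R) ∈ A₂) ∧
    (∀ ψ : R ≃+* R, Compat ρ ψ → ∀ a a' : R ≃ₐ[ℂ] R, (∀ r, a' (ψ r) = ψ (a r)) →
      (a ∈ A₁ → a' ∈ A₁) ∧ (a ∈ A₂ → a' ∈ A₂)) ∧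
    ∃ V : Submodule ℂ R, FiniteDimensional ℂ V ∧ Algebra.adjoin ℂ (V : Set R) = ⊤ ∧
      ∃ K : AffineSubspace ℂ (V →ₗ[ℂ] R), ∀ a ∈ eqAut ρ,
        a ∈ A₂ ↔ (∀ v ∈ V, a v ∈ V) ∧ a.toLinearMap ∘ₗ V.subtype ∈ K

/-- common hypotheses of the structure theorem -/
structure Setup {G : Type} [Group G] (H : Subalgebra ℂ (G → ℂ)) (B : Subgroup G) {R : Type}
    [CommRing R] [IsDomain R] [Algebra ℂ R] (ρ : G →* (R ≃ₐ[ℂ] R)) : Prop where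
  hopf : HopfFun H
  irr : IrrFun H
  red : LinRed H
  solv : Group.IsSolvable B
  irrB : IrrFun (resFun H B)
  ic : IsIntegrallyClosed R
  ft : Algebra.FiniteType ℂ R
  rat : IsRat H (toRep ρ)
  cx : CxOne (ρ.comp B.subtype)

/-- the ring of invariants is a curve ring -/
def ST_INV : Prop :=
  ∀ (G : Type) [Group G] (H : Subalgebra ℂ (G → ℂ)) (B : Subgroup G) (R : Type) [CommRing R]
    [IsDomain R] [Algebra ℂ R] (ρ : G →* (R ≃ₐ[ℂ] R)), Setup H B ρ →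
    (∃ t ∈ invt ρ, ∀ c : ℂ, t ≠ algebraMap ℂ R c) → CurveRing (invt ρ)

/-- case: the group acts on the ring of invariants through a finite group -/
def ST_STRA : Prop :=
  ∀ (G : Type) [Group G] (H : Subalgebra ℂ (G → ℂ)) (B : Subgroup G) (R : Type) [CommRing R]
    [IsDomain R] [Algebra ℂ R] (ρ : G →* (R ≃ₐ[ℂ] R)), Setup H B ρ →
    (∃ t ∈ invt ρ, ∀ c : ℂ, t ≠ algebraMap ℂ R c) →
    {f : invt ρ → R | ∃ a ∈ eqAut ρ, ∀ r, f r = a r}.Finite → StrOut ρ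

/-- case: the ring of invariants is a polynomial ring -/
def ST_STRB : Prop :=
  ∀ (G : Type) [Group G] (H : Subalgebra ℂ (G → ℂ)) (B : Subgroup G) (R : Type) [CommRing R]
    [IsDomain R] [Algebra ℂ R] (ρ : G →* (R ≃ₐ[ℂ] R)), Setup H B ρ →
    Nonempty (invt ρ ≃ₐ[ℂ] Polynomial ℂ) → StrOut ρ

/-- case: the ring of invariants is a Laurent polynomial ring -/
def ST_STRC : Prop :=
  ∀ (G : Type) [Group G] (H : Subalgebra ℂ (G → ℂ)) (B : Subgroup G) (R : Type) [CommRing R]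
    [IsDomain R] [Algebra ℂ R] (ρ : G →* (R ≃ₐ[ℂ] R)), Setup H B ρ →
    Nonempty (invt ρ ≃ₐ[ℂ] LaurentPolynomial ℂ) → StrOut ρ

/-- structure theorem -/
def ST_STR : Prop :=
  ∀ (G : Type) [Group G] (H : Subalgebra ℂ (G → ℂ)) (B : Subgroup G) (R : Type) [CommRing R]
    [IsDomain R] [Algebra ℂ R] (ρ : G →* (R ≃ₐ[ℂ] R)), Setup H B ρ → StrOut ρ

/-- equivariant real structures, algebraically -/
def IsRS {G : Type} [Group G] {R : Type} [CommRing R] [Algebra ℂ R]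
    (ρ : G →* (R ≃ₐ[ℂ] R)) (σ : G ≃* G) (μ : R ≃+* R) : Prop :=
  Anti μ ∧ (∀ r, μ (μ r) = r) ∧ ∀ g r, μ (ρ g r) = ρ (σ g) (μ r)

/-- algebraic main theorem -/
def ST_CORE : Prop :=
  ∀ (G : Type) [Group G] (H : Subalgebra ℂ (G → ℂ)), HopfFun H → ∀ G₀ : Subgroup G,
    ∀ B₀ : Subgroup G₀,
    ∀ (R : Type) [CommRing R] [IsDomain R] [Algebra ℂ R] (ρ : G →* (R ≃ₐ[ℂ] R)),
      IsRat H (toRep ρ) → Setup (resFun H G₀) B₀ (ρ.comp G₀.subtype) →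
      ∀ σ : G ≃* G, (∀ g, g ∈ G₀ ↔ σ g ∈ G₀) →
      ∃ T : Finset (R ≃+* R), (∀ μ ∈ T, IsRS ρ σ μ) ∧
        ∀ μ, IsRS ρ σ μ → ∃ ν ∈ T, ∃ a ∈ eqAut ρ, ∀ r, μ r = a (ν (a.symm r))

end Pool.Agent.Helper43.RS
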